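import Pool.Agent.H16.Cg4

set_option autoImplicit false

namespace Pool.Agent.Results.MP_eff4ce_al.Yes

open Pool.Agent.H16.Cg

/-- The commuting graph: non-central elements, adjacent when distinct and commuting. -/
def commGraph (S : Type) [Semigroup S] : SimpleGraph {x : S // ¬ ∀ y, x * y = y * x} where
  Adj x y := x ≠ y ∧ x.1 * y.1 = y.1 * x.1
  symm := ⟨fun _ _ h => ⟨h.1.symm, h.2.symm⟩⟩
  loopless := ⟨fun _ h => h.1 rfl⟩

/-- The least number of generators of a semigroup whose commuting graph is isomorphic to `G`. -/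
noncomputable def rank {V : Type} (G : SimpleGraph V) : ℕ∞ :=
  ⨅ (S : Type) (_ : Semigroup S) (A : Finset S) (_ : Subsemigroup.closure (A : Set S) = ⊤)
    (_ : Nonempty (commGraph S ≃g G)), (A.card : ℕ∞)

/-- No vertex is adjacent to every other vertex. -/
def StarFree {V : Type} (G : SimpleGraph V) : Prop := ∀ v, ∃ w, w ≠ v ∧ ¬ G.Adj v w

theorem starFree (S : Type) [Semigroup S] : StarFree (commGraph S) := by
  rintro ⟨x, hx⟩
  obtain ⟨y, hy⟩ := not_forall.1 hx
  exact ⟨⟨y, fun h => hy (h x).symm⟩,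
    fun h => hy (by rw [show y = x from congrArg Subtype.val h]), fun h => hy h.2⟩

theorem rank_le (Z : List ℕ) : rank (commGraph (SS Z)) ≤ 7 := by
  classical
  refine iInf_le_of_le (SS Z) (iInf_le_of_le inferInstance (iInf_le_of_le
    ((gens Z).toFinset.subtype (· ∈ SS Z)) (iInf_le_of_le ?_
      (iInf_le_of_le ⟨SimpleGraph.Iso.refl⟩ ?_))))
  · refine Eq.trans ?_ (Subsemigroup.closure_closure_coe_preimage (s := {x | x ∈ gens Z}))
    congr 1
    ext x
    simp
    rfl
  · rw [Finset.card_subtype]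
    exact_mod_cast (Finset.card_filter_le _ _).trans (List.toFinset_card_le _)

theorem long {Z : List ℕ} (hZ : Good Z) {a : _} (c : (commGraph (SS Z)).Walk a a)
    (hc : c.IsCycle) : Z.length ≤ c.length + 1 := by
  classical
  have h := closed hZ ((fun x => x.1.1) '' {x | x ∈ c.support})
    (by rintro _ ⟨x, -, rfl⟩; exact SS_T hZ x.1.2) ⟨_, a, c.start_mem_support, rfl⟩ (by
      rintro _ ⟨x, hx, rfl⟩
      obtain ⟨y, z, h1, h2⟩ := Set.ncard_eq_two.1 (hc.ncard_neighborSet_toSubgraph_eq_two hx)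
      have hy : c.toSubgraph.Adj x y := show y ∈ c.toSubgraph.neighborSet x by simp [h2]
      have hz : c.toSubgraph.Adj x z := show z ∈ c.toSubgraph.neighborSet x by simp [h2]
      have inj : ∀ u v : {x : SS Z // ¬ ∀ y, x * y = y * x}, u ≠ v → u.1.1 ≠ v.1.1 :=
        fun u v h e => h (Subtype.ext (Subtype.ext e))
      exact ⟨_, ⟨y, c.mem_verts_toSubgraph.1 hy.snd_mem, rfl⟩, _,
        ⟨z, c.mem_verts_toSubgraph.1 hz.snd_mem, rfl⟩, inj _ _ h1, inj _ _ hy.adj_sub.1,
        inj _ _ hz.adj_sub.1, congrArg Subtype.val hy.adj_sub.2,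
        congrArg Subtype.val hz.adj_sub.2⟩)
  have h1 := Finset.card_le_card_of_injOn (s := Finset.Icc 1 Z.length)
    (t := c.support.toFinset.image fun x => x.1.1) (fun j => R Z (Z.take j) [])
    (fun j hj => by
      have := Finset.mem_Icc.1 hj
      obtain ⟨x, hx, e⟩ := h j this.1 this.2
      exact Finset.mem_coe.2 (Finset.mem_image.2 ⟨x, List.mem_toFinset.2 hx, e⟩))
    (fun i hi j hj e => by
      have h1 := Finset.mem_Icc.1 hi
      have h2 := Finset.mem_Icc.1 hj
      have := congrArg List.length (R_inj hZ (isW_take h1.1 h1.2) (isW_take h2.1 h2.2) e)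
      simp only [List.length_take] at this
      omega)
  have h2 := (h1.trans Finset.card_image_le).trans (List.toFinset_card_le _)
  simpa using h2

theorem cyc {Z : List ℕ} (hZ : Good Z) (hn : 2 ≤ Z.length) :
    ¬ (commGraph (SS Z)).IsAcyclic := by
  have w : ∀ k : Set.Icc 1 Z.length, isW Z (Z.take k) := fun k => isW_take k.2.1 k.2.2
  have ln : ∀ k : Set.Icc 1 Z.length, (Z.take k).length = k := fun k => by
    rw [List.length_take, min_eq_left k.2.2]
  let o : Set.Icc 1 Z.length := ⟨1, le_rfl, by omega⟩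
  let l : Set.Icc 1 Z.length := ⟨Z.length, by omega, le_rfl⟩
  have uinj : ∀ i j : Set.Icc 1 Z.length, R Z (Z.take i) [] = R Z (Z.take j) [] → i = j :=
    fun i j e => Subtype.ext (by rw [← ln, R_inj hZ (w i) (w j) e, ln])
  have ol : o ≠ l := fun h => by have : 1 = Z.length := congrArg Subtype.val h; omega
  let U : Set.Icc 1 Z.length → {x : SS Z // ¬ ∀ y, x * y = y * x} := fun k =>
    ⟨⟨_, R_SS hZ (w k)⟩, fun h => by
      have e : ∀ j, k = j := fun j => uinj _ _ (NN hZ
        (Or.inr ⟨_, _, (w k).2.isInfix, List.nil_infix, rfl⟩)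
        (Or.inr ⟨_, _, (w j).2.isInfix, List.nil_infix, rfl⟩)
        (congrArg Subtype.val (h ⟨_, R_SS hZ (w j)⟩)))
      exact ol ((e o).symm.trans (e l))⟩
  let C : Set.Icc 1 Z.length → {a : ℕ // a = 4 ∨ a = 5} → {x : SS Z // ¬ ∀ y, x * y = y * x} :=
    fun k a => ⟨⟨_, K_SS hZ (w k) a.2⟩, fun h => by
      have e : ∀ b : {a : ℕ // a = 4 ∨ a = 5}, b.1 = a.1 := fun b => by
        simpa using (List.append_inj'
          (fix (congrArg Subtype.val (h ⟨_, K_SS hZ (w k) b.2⟩))).1 rfl).2.symm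
      have h4 := e ⟨4, by omega⟩
      have h5 := e ⟨5, by omega⟩
      simp only at h4 h5
      omega⟩
  have uc : ∀ i j a, U i ≠ C j a := fun i j a e =>
    R_ne_K hZ (w i) _ _ a.2 (congrArg (fun x => x.1.1) e)
  have adj : ∀ (i j : Set.Icc 1 Z.length) (a : {a : ℕ // a = 4 ∨ a = 5}),
      rr Z.length a.1 i = rr Z.length a.1 j → (commGraph (SS Z)).Adj (U i) (C j a) := fun i j a e => by
    refine ⟨uc i j a, Subtype.ext ?_⟩
    have := RK hZ (w i) a.2
    rw [show rho Z a.1 (Z.take i) = rho Z a.1 (Z.take j) by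
      rw [rho, rho, if_pos (w i), if_pos (w j), ln, ln, e]] at this
    exact this
  have cinj : ∀ (i j : Set.Icc 1 Z.length) a b, C i a = C j b →
      a.1 = b.1 ∧ rr Z.length a.1 i = rr Z.length b.1 j := by
    intro i j a b e
    have e' : rho Z a.1 (Z.take i) ++ [a.1] = rho Z b.1 (Z.take j) ++ [b.1] :=
      congrArg (fun x => x.1.1.f []) e
    obtain ⟨h1, h2⟩ := List.append_inj' e' rfl
    have := congrArg List.length h1
    rw [rho_len hZ (w i), rho_len hZ (w j), ln, ln] at this
    exact ⟨by simpa using h2, this⟩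
  have ev := hZ.ev
  let f : {a : ℕ // a = 4 ∨ a = 5} := ⟨5, by omega⟩
  have r1 : rr Z.length 5 1 = 1 := by simp [rr]
  have rl : rr Z.length 5 Z.length = 1 := by simp [rr, ev]
  intro h
  refine SimpleGraph.isBridge_iff.1
    (SimpleGraph.isAcyclic_iff_forall_adj_isBridge.1 h (adj l l f rfl)) ?_
  have st : ∀ (i j : Set.Icc 1 Z.length) (a : {a : ℕ // a = 4 ∨ a = 5}),
      rr Z.length a.1 i = rr Z.length a.1 j → (i ≠ l ∨ C j a ≠ C l f) →
      ((commGraph (SS Z)).deleteEdges {s(U l, C l f)}).Reachable (U i) (C j a) := by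
    intro i j a e hne
    refine SimpleGraph.Adj.reachable (SimpleGraph.deleteEdges_adj.2 ⟨adj i j a e, fun h => ?_⟩)
    rcases Sym2.eq_iff.1 (Set.mem_singleton_iff.1 h) with h | h
    · exact hne.elim (fun h' => h' (uinj _ _ (congrArg (fun x => x.1.1) h.1))) fun h' => h' h.2
    · exact uc _ _ _ h.1
  have all : ∀ k (h1 : 1 ≤ k) (h2 : k ≤ Z.length),
      ((commGraph (SS Z)).deleteEdges {s(U l, C l f)}).Reachable (U o) (U ⟨k, h1, h2⟩) := by
    intro k h1
    induction k, h1 using Nat.le_induction with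
    | base => exact fun _ => SimpleGraph.Reachable.refl _
    | succ k h1 ih =>
      intro h2
      have m := Nat.mod_eq_of_lt (show k < Z.length by omega)
      have hne : C ⟨k, h1, by omega⟩ ⟨4 + (k + 1) % 2, by omega⟩ ≠ C l f := fun e => by
        obtain ⟨e1, e2⟩ := cinj _ _ _ _ e
        simp only [f, l, rl] at e1 e2
        unfold rr at e2
        split_ifs at e2 <;> omega
      refine ((ih (by omega)).trans (st _ _ _ rfl (Or.inr hne))).trans
        (st _ _ _ ?_ (Or.inr hne)).symm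
      simp only [rr]
      split_ifs <;> omega
  exact (all _ l.2.1 l.2.2).symm.trans (st o l f (r1.trans rl.symm) (Or.inl ol))

theorem result : ∃ (C : ℕ) (V : ℕ → Type) (G : ∀ k, SimpleGraph (V k)),
    (∀ k, Finite (V k) ∧ StarFree (G k) ∧ ¬ (G k).IsAcyclic ∧ rank (G k) ≤ C) ∧
      Filter.Tendsto (fun k => (G k).girth) Filter.atTop Filter.atTop := by
  have hZ : ∀ k, Good (ZZ (2 * k + 1)) := fun k => good _ (by omega)
  have hl : ∀ k, (ZZ (2 * k + 1)).length = 2 * k + 2 := fun k => by simp [ZZ]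
  have hc := fun k => cyc (hZ k) (by rw [hl]; omega)
  refine ⟨7, _, fun k => commGraph (SS (ZZ (2 * k + 1))), fun k => ⟨?_, starFree _, hc k,
    rank_le _⟩, Filter.tendsto_atTop_mono (fun k => ?_) Filter.tendsto_id⟩
  · have : Finite (SS (ZZ (2 * k + 1))) :=
      ((T_fin _).subset fun x hx => SS_T (hZ k) hx).to_subtype
    infer_instance
  · obtain ⟨a, c, h1, h2⟩ := SimpleGraph.exists_girth_eq_length.2 (hc k)
    have := long (hZ k) c h1
    rw [hl] at this
    simp only [id, h2]
    omega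

end Pool.Agent.Results.MP_eff4ce_al.Yes
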